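import Pool.Agent.Lib.helper16.CroftA

set_option autoImplicit false
open MeasureTheory Set
open scoped ENNReal

namespace Pool.Agent.Results.MP_ec7c5f_an.NoCont

abbrev Plane := EuclideanSpace ℝ (Fin 2)

/-- pairs `(θ, p)` in `S¹ × ℝ` -/
abbrev Param := Metric.sphere (0 : Plane) 1 × ℝ

/-- `(θ, p)` and `(-θ, -p)` are identified -/
def lineSetoid : Setoid Param where
  r a b := a = b ∨ (a.1 = -b.1 ∧ a.2 = -b.2)
  iseqv := by
    refine ⟨fun _ => Or.inl rfl, ?_, ?_⟩
    · rintro a b (h | ⟨h1, h2⟩)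
      · exact Or.inl h.symm
      · exact Or.inr ⟨by rw [h1, neg_neg], by rw [h2, neg_neg]⟩
    · rintro a b c (h | ⟨h1, h2⟩) (k | ⟨k1, k2⟩)
      · exact Or.inl (h.trans k)
      · exact Or.inr ⟨by rw [h, k1], by rw [h, k2]⟩
      · exact Or.inr ⟨by rw [h1, k], by rw [h2, k]⟩
      · exact Or.inl (Prod.ext (by rw [h1, k1, neg_neg]) (by rw [h2, k2, neg_neg]))

/-- the space of lines, with the quotient topology -/
abbrev LineSpace := Quotient lineSetoid

/-- the point set `L(θ, p) = {x | x ⋅ θ = p}` of a line -/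
def carrier : LineSpace → Set Plane :=
  Quotient.lift (fun a : Param => {x : Plane | inner ℝ x (a.1 : Plane) = a.2}) (by
    rintro a b (h | ⟨h1, h2⟩)
    · rw [h]
    · ext x
      simp only [mem_ofPred_eq, h1, h2, coe_neg_sphere, inner_neg_right, neg_inj])

def inv : LineSpace → ℝ × ℝ × ℝ × ℝ :=
  Quotient.lift (fun a : Param => ((a.1 : Plane) 1 * (a.1 : Plane) 1, (a.1 : Plane) 0 * (a.1 : Plane) 1,
    a.2 * (a.1 : Plane) 1, a.2 * (a.1 : Plane) 0)) (by
    rintro a b (h | ⟨h1, h2⟩)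
    · rw [h]
    · simp [h1, h2])

lemma inv_cont : Continuous inv := by
  apply Continuous.quotient_lift
  fun_prop

lemma mem_car (a : Param) (x : Plane) :
    x ∈ carrier (Quotient.mk lineSetoid a) ↔ x 0 * (a.1 : Plane) 0 + x 1 * (a.1 : Plane) 1 = a.2 := by
  change inner ℝ x (a.1 : Plane) = a.2 ↔ _
  rw [PiLp.inner_apply, Fin.sum_univ_two]
  simp only [RCLike.inner_apply, conj_trivial]
  constructor <;> intro h <;> linarith

lemma car_nv (L : LineSpace) (h : (inv L).1 ≠ 0) (x : Plane) :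
    x ∈ carrier L ↔ x 1 = -((inv L).2.1 / (inv L).1) * x 0 + (inv L).2.2.1 / (inv L).1 := by
  induction L using Quotient.inductionOn with
  | h a =>
    rw [mem_car]
    change (a.1 : Plane) 1 * (a.1 : Plane) 1 ≠ 0 at h
    change _ ↔ x 1 = -(((a.1 : Plane) 0 * (a.1 : Plane) 1) / ((a.1 : Plane) 1 * (a.1 : Plane) 1)) * x 0
      + (a.2 * (a.1 : Plane) 1) / ((a.1 : Plane) 1 * (a.1 : Plane) 1)
    have h1 : (a.1 : Plane) 1 ≠ 0 := fun k => h (by rw [k, mul_zero])
    constructor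
    · intro k; field_simp; linarith
    · intro k; rw [k]; field_simp; ring

lemma car_v (L : LineSpace) (h : (inv L).1 = 0) (x : Plane) :
    x ∈ carrier L ↔ x 0 = (inv L).2.2.2 := by
  induction L using Quotient.inductionOn with
  | h a =>
    rw [mem_car]
    change (a.1 : Plane) 1 * (a.1 : Plane) 1 = 0 at h
    change _ ↔ x 0 = a.2 * (a.1 : Plane) 0
    have h1 : (a.1 : Plane) 1 = 0 := mul_self_eq_zero.1 h
    have h2 : ‖(a.1 : Plane)‖ = 1 := by simpa using a.1.2
    have h3 : (a.1 : Plane) 0 * (a.1 : Plane) 0 = 1 := by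
      have := EuclideanSpace.real_norm_sq_eq (a.1 : Plane)
      rw [h2, Fin.sum_univ_two, h1] at this
      linarith
    rw [h1]
    constructor
    · intro k
      calc x 0 = x 0 * ((a.1 : Plane) 0 * (a.1 : Plane) 0) := by rw [h3, mul_one]
        _ = _ := by rw [← k]; ring
    · intro k
      rw [k]
      calc a.2 * (a.1 : Plane) 0 * (a.1 : Plane) 0 + x 1 * 0
          = a.2 * ((a.1 : Plane) 0 * (a.1 : Plane) 0) := by ring
        _ = _ := by rw [h3, mul_one]

lemma big (S : Set Plane) (i : Fin 2) (u : ℝ) (h : ∀ s ∈ Ico u (u + 1), ∃ x ∈ S, x i = s) :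
    1 ≤ μH[1] S := by
  have hl : LipschitzWith 1 (fun x : Plane => x i) := by
    refine LipschitzWith.of_dist_le_mul fun x y => ?_
    rw [NNReal.coe_one, one_mul]
    exact PiLp.dist_apply_le x y i
  have h1 := hl.hausdorffMeasure_image_le zero_le_one S
  rw [hausdorffMeasure_real] at h1
  have h2 : volume (Ico u (u + 1)) ≤ volume ((fun x : Plane => x i) '' S) :=
    measure_mono fun s hs => h s hs
  rw [Real.volume_Ico] at h2
  simpa using h2.trans h1

theorem result : ∃ E : Set Plane, MeasurableSet E ∧ 0 < volume E ∧ volume E < ∞ ∧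
    ∀ δ : ℝ, 0 < δ → ¬ ∃ L : ℝ → LineSpace, ContinuousOn L (Ioo 0 δ) ∧
      ∀ t ∈ Ioo 0 δ, μH[1] (carrier (L t) ∩ E) = ENNReal.ofReal t := by
  obtain ⟨F, hFm, hF0, hF1, hV, hA, hK⟩ := Pool.Agent.Lib.helper16.CroftA.exists_set
  have mp : MeasurePreserving (fun x : Plane => (x 0, x 1)) :=
    (volume_preserving_finTwoArrow ℝ).comp (PiLp.volume_preserving_ofLp (Fin 2))
  refine ⟨(fun x : Plane => (x 0, x 1)) ⁻¹' F, mp.measurable hFm,
    by rwa [mp.measure_preimage hFm.nullMeasurableSet],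
    by rwa [mp.measure_preimage hFm.nullMeasurableSet], ?_⟩
  rintro δ hδ ⟨L, hL, hm⟩
  set E := (fun x : Plane => (x 0, x 1)) ⁻¹' F with hE
  set η := min δ 1 with hη
  have hη0 : 0 < η := lt_min hδ one_pos
  have hsub : Ioo 0 η ⊆ Ioo 0 δ := Ioo_subset_Ioo_right (min_le_left _ _)
  have small : ∀ t ∈ Ioo 0 η, ¬ 1 ≤ μH[1] (carrier (L t) ∩ E) := by
    intro t ht h
    rw [hm t (hsub ht), ENNReal.one_le_ofReal] at h
    have := ht.2.trans_le (min_le_right _ _)
    linarith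
  have inj : ∀ s ∈ Ioo 0 η, ∀ t ∈ Ioo 0 η, carrier (L s) = carrier (L t) → s = t := by
    intro s hs t ht h
    have h1 := hm s (hsub hs)
    rw [h, hm t (hsub ht), ENNReal.ofReal_eq_ofReal_iff ht.1.le hs.1.le] at h1
    exact h1.symm
  have hc : ContinuousOn (fun t => inv (L t)) (Ioo 0 η) :=
    inv_cont.comp_continuousOn (hL.mono hsub)
  by_cases hv : ∀ t ∈ Ioo 0 η, (inv (L t)).1 = 0
  · -- all lines vertical
    have hz : ContinuousOn (fun t => (inv (L t)).2.2.2) (Ioo 0 η) := hc.snd.snd.snd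
    have key : ∀ s ∈ Ioo 0 η, ∀ t ∈ Ioo 0 η, ¬ (inv (L s)).2.2.2 < (inv (L t)).2.2.2 := by
      intro s hs t ht hlt
      obtain ⟨q, hq1, hq2⟩ := exists_rat_btwn hlt
      obtain ⟨r, hr, hrq⟩ := isPreconnected_Ioo.intermediate_value hs ht hz ⟨hq1.le, hq2.le⟩
      refine small r hr (big _ 1 0 fun y _ => ⟨!₂[(q : ℝ), y], ⟨?_, ?_⟩, by simp⟩)
      · rw [car_v _ (hv r hr)]; simpa using hrq.symm
      · simpa [hE] using hV q y
    have h1 : η / 3 ∈ Ioo 0 η := ⟨by linarith, by linarith⟩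
    have h2 : η / 2 ∈ Ioo 0 η := ⟨by linarith, by linarith⟩
    have h3 := le_antisymm (not_lt.1 (key _ h1 _ h2)) (not_lt.1 (key _ h2 _ h1))
    have : η / 3 = η / 2 := inj _ h1 _ h2 (by
      ext x; rw [car_v _ (hv _ h1), car_v _ (hv _ h2), h3])
    linarith
  · push Not at hv
    obtain ⟨t0, ht0, hu0⟩ := hv
    have hev : ∀ᶠ t in nhds t0, t ∈ Ioo 0 η ∧ (inv (L t)).1 ≠ 0 := by
      have h1 : Ioo 0 η ∈ nhds t0 := isOpen_Ioo.mem_nhds ht0
      exact Filter.Eventually.and h1 ((hc.fst.continuousAt h1).eventually_ne hu0)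
    obtain ⟨ρ, hρ, hb⟩ := Metric.eventually_nhds_iff_ball.1 hev
    set J := Icc t0 (t0 + ρ / 2) with hJ
    have hJ1 : ∀ t ∈ J, t ∈ Ioo 0 η ∧ (inv (L t)).1 ≠ 0 := fun t ht => hb t (by
      rw [Real.ball_eq_Ioo]; exact ⟨by linarith [ht.1], by linarith [ht.2]⟩)
    have hcJ : ContinuousOn (fun t => inv (L t)) J := hc.mono fun t ht => (hJ1 t ht).1
    set a : ℝ → ℝ := fun t => -((inv (L t)).2.1 / (inv (L t)).1) with ha
    set b : ℝ → ℝ := fun t => (inv (L t)).2.2.1 / (inv (L t)).1 with hb'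
    have hac : ContinuousOn a J := (hcJ.snd.fst.div hcJ.fst fun t ht => (hJ1 t ht).2).neg
    have hbc : ContinuousOn b J := hcJ.snd.snd.fst.div hcJ.fst fun t ht => (hJ1 t ht).2
    have hcar : ∀ t ∈ J, ∀ x : Plane, x ∈ carrier (L t) ↔ x 1 = a t * x 0 + b t :=
      fun t ht x => car_nv _ (hJ1 t ht).2 x
    have noseg : ∀ t ∈ J, ∀ u : ℝ, ¬ ∀ x ∈ Ico u (u + 1), (x, a t * x + b t) ∈ F := by
      intro t ht u h
      refine small t (hJ1 t ht).1 (big _ 0 u fun x hx => ⟨!₂[x, a t * x + b t], ⟨?_, ?_⟩, by simp⟩)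
      · rw [hcar t ht]; simp
      · simpa [hE] using h x hx
    obtain ⟨M, hM⟩ := (isCompact_Icc : IsCompact J).exists_bound_of_continuousOn hbc
    have keya : ∀ s ∈ J, ∀ t ∈ J, ¬ a s < a t := by
      intro s hs t ht hlt
      obtain ⟨q, hq1, hq2⟩ := exists_rat_btwn hlt
      have hg : 0 < min (q - a s) (a t - q) := lt_min (by linarith) (by linarith)
      obtain ⟨n, hn⟩ := exists_nat_gt (max M (M / min (q - a s) (a t - q)))
      obtain ⟨R, hR, hRA⟩ := hA q n
      have hn1 : M < n := (le_max_left _ _).trans_lt hn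
      have hn2 : M < n * min (q - a s) (a t - q) := by
        rw [← div_lt_iff₀ hg]; exact (le_max_right _ _).trans_lt hn
      have hn0 : (0 : ℝ) ≤ n := by positivity
      have hgc : ContinuousOn (fun r => (a r - q) * R + b r) J :=
        ((hac.sub continuousOn_const).mul continuousOn_const).add hbc
      have m1 := min_le_left (q - a s) (a t - q)
      have m2 := min_le_right (q - a s) (a t - q)
      have b1 := abs_le.1 (hM s hs)
      have b2 := abs_le.1 (hM t ht)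
      obtain ⟨r, hr, hr0⟩ := isPreconnected_Icc.intermediate_value hs ht hgc
        (show (0 : ℝ) ∈ Icc ((a s - q) * R + b s) ((a t - q) * R + b t) from
          ⟨by nlinarith [b1.2], by nlinarith [b2.1]⟩)
      exact noseg r hr R (hRA _ _ (((hM r hr).trans hn1.le).trans (by linarith)) hr0)
    have aconst : ∀ s ∈ J, ∀ t ∈ J, a s = a t := fun s hs t ht =>
      le_antisymm (not_lt.1 (keya _ ht _ hs)) (not_lt.1 (keya _ hs _ ht))
    have keyb : ∀ s ∈ J, ∀ t ∈ J, ¬ b s < b t := by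
      intro s hs t ht hlt
      obtain ⟨q, hq1, hq2⟩ := exists_rat_btwn hlt
      obtain ⟨n, hn⟩ := exists_nat_gt (max |a s| (1 / (q - b s)))
      obtain ⟨β, h1, h2, h3⟩ := hK q n (a s) ((le_max_left _ _).trans hn.le)
      have h4 : 1 / ((n : ℝ) + 1) ≤ q - b s := by
        have h5 : 1 / ((q : ℝ) - b s) < n := (le_max_right _ _).trans_lt hn
        rw [div_lt_iff₀ (by linarith)] at h5
        rw [div_le_iff₀ (by positivity)]
        nlinarith
      obtain ⟨r, hr, hr0⟩ := isPreconnected_Icc.intermediate_value hs ht hbc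
        (show β ∈ Icc (b s) (b t) from ⟨by linarith, by linarith⟩)
      refine noseg r hr 0 ?_
      rw [aconst r hr s hs, hr0]
      exact h3
    have h1 : t0 ∈ J := ⟨le_rfl, by linarith⟩
    have h2 : t0 + ρ / 2 ∈ J := ⟨by linarith, le_rfl⟩
    have h3 := le_antisymm (not_lt.1 (keyb _ h1 _ h2)) (not_lt.1 (keyb _ h2 _ h1))
    have : t0 = t0 + ρ / 2 := inj _ (hJ1 _ h1).1 _ (hJ1 _ h2).1 (by
      ext x; rw [hcar _ h1, hcar _ h2, aconst _ h1 _ h2, h3])
    linarith

end Pool.Agent.Results.MP_ec7c5f_an.NoCont
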